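import Pool.Agent.Q62.AV.Stm

/-! Lemma V0 of project AV (functions of a diagonal operator). -/

open MeasureTheory Filter Topology Set
open scoped ContDiff InnerProductSpace

namespace Pool.Agent.Q130.AV
open Pool.Agent.Q62.AV

section
variable {H : Type} [NormedAddCommGroup H] [InnerProductSpace ℝ H] [CompleteSpace H]
  (e : HilbertBasis ℕ ℝ H)

theorem sum_sq (f : H) : HasSum (fun j => ⟪e j, f⟫_ℝ ^ 2) (‖f‖ ^ 2) := by
  have h := e.hasSum_inner_mul_inner f f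
  rw [real_inner_self_eq_norm_sq] at h
  refine h.congr_fun ?_
  intro j
  rw [real_inner_comm, sq]

theorem abs_summable (f h : H) : Summable (fun j => |⟪e j, f⟫_ℝ * ⟪e j, h⟫_ℝ|) := by
  have h1 := (e.hasSum_inner_mul_inner f h).summable
  have h2 : Summable (fun j => ⟪e j, f⟫_ℝ * ⟪e j, h⟫_ℝ) := by
    refine h1.congr fun j => ?_
    rw [real_inner_comm]
  exact h2.abs

theorem dg_spec (Φ : ℕ → ℝ) (C : ℝ) (hΦ : ∀ j, |Φ j| ≤ C) (f : H) :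
    (∀ j, ⟪e j, dg e Φ f⟫_ℝ = Φ j * ⟪e j, f⟫_ℝ) ∧ ‖dg e Φ f‖ ≤ C * ‖f‖ := by
  have hC : 0 ≤ C := (abs_nonneg _).trans (hΦ 0)
  let c : ℕ → ℝ := fun j => Φ j * ⟪e j, f⟫_ℝ
  have hle : ∀ j, c j ^ 2 ≤ C ^ 2 * ⟪e j, f⟫_ℝ ^ 2 := by
    intro j
    show (Φ j * ⟪e j, f⟫_ℝ) ^ 2 ≤ _
    rw [mul_pow]
    refine mul_le_mul_of_nonneg_right ?_ (sq_nonneg _)
    rw [← sq_abs (Φ j)]
    exact pow_le_pow_left₀ (abs_nonneg _) (hΦ j) 2
  have hs0 := (sum_sq e f).summable.mul_left (C ^ 2)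
  have hs : Summable (fun j => c j ^ 2) := Summable.of_nonneg_of_le (fun j => sq_nonneg _) hle hs0
  have hmem : Memℓp c 2 := by
    refine memℓp_gen ?_
    simpa using hs
  let c' : lp (fun _ : ℕ => ℝ) 2 := ⟨c, hmem⟩
  have hsum : HasSum (fun j => c j • e j) (e.repr.symm c') := e.hasSum_repr_symm c'
  have hdg : dg e Φ f = e.repr.symm c' := hsum.tsum_eq
  have hin : ∀ j, ⟪e j, e.repr.symm c'⟫_ℝ = c j := by
    intro j
    rw [← e.repr_apply_apply, LinearIsometryEquiv.apply_symm_apply]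
  refine ⟨fun j => by rw [hdg, hin], ?_⟩
  have h1 := sum_sq e (e.repr.symm c')
  simp_rw [hin] at h1
  have h2 : ‖e.repr.symm c'‖ ^ 2 ≤ (C * ‖f‖) ^ 2 := by
    rw [mul_pow]
    exact hasSum_le hle h1 ((sum_sq e f).mul_left (C ^ 2))
  rw [hdg]
  exact le_of_sq_le_sq h2 (mul_nonneg hC (norm_nonneg _))
where
  le_of_sq_le_sq {a b : ℝ} (h : a ^ 2 ≤ b ^ 2) (hb : 0 ≤ b) : a ≤ b := by
    nlinarith [sq_nonneg (a + b)]

end

theorem t_V0 : S_V0 := by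
  intro H _ _ _ e Φ C hΦ f
  obtain ⟨h1, h2⟩ := dg_spec e Φ C hΦ f
  refine ⟨h1, h2, fun h => ⟨abs_summable e f h, ?_⟩⟩
  have h3 := e.tsum_inner_mul_inner (dg e Φ f) h
  rw [← h3]
  refine tsum_congr fun j => ?_
  rw [real_inner_comm, h1]

end Pool.Agent.Q130.AV
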