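import Pool.Agent.Q62.AV.Stm

/-! Lemma V4 of project AV (Poisson kernel). -/

open MeasureTheory Filter Topology Set
open scoped FourierTransform

namespace Pool.Agent.Q130.AV
open Pool.Agent.Q62.AV

/-- two sided exponential -/
noncomputable def ff (σ : ℝ) (y : ℝ) : ℂ := (Real.exp (-(σ * |y|)) : ℂ)

theorem ff_cont (σ : ℝ) : Continuous (ff σ) := by
  unfold ff; fun_prop

theorem ff_int (σ : ℝ) (hσ : 0 < σ) : Integrable (ff σ) := by
  have h1 : Integrable (fun y : ℝ => Real.exp (-(σ * |y|))) := by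
    rw [← integrableOn_univ, ← Iic_union_Ioi (a := (0 : ℝ))]
    refine IntegrableOn.union ?_ ?_
    · refine (integrableOn_exp_mul_Iic hσ 0).congr_fun ?_ measurableSet_Iic
      intro y hy
      show Real.exp (σ * y) = Real.exp (-(σ * |y|))
      rw [abs_of_nonpos hy]
      congr 1; ring
    · refine (integrableOn_exp_mul_Ioi (a := -σ) (by linarith) 0).congr_fun ?_ measurableSet_Ioi
      intro y hy
      show Real.exp (-σ * y) = Real.exp (-(σ * |y|))
      rw [abs_of_pos hy]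
      congr 1; ring
  exact h1.ofReal

theorem ff_fourier (σ : ℝ) (hσ : 0 < σ) (w : ℝ) :
    𝓕 (ff σ) w = ((2 * σ / (σ ^ 2 + (2 * Real.pi * w) ^ 2) : ℝ) : ℂ) := by
  rw [Real.fourier_real_eq_integral_exp_smul]
  let a : ℂ := -(σ : ℂ) - 2 * Real.pi * w * Complex.I
  let b : ℂ := (σ : ℂ) - 2 * Real.pi * w * Complex.I
  have hre : ∀ x : ℝ, (2 * (Real.pi : ℂ) * (x : ℂ) * Complex.I).re = 0 := by
    intro x
    have : (2 * (Real.pi : ℂ) * (x : ℂ) * Complex.I) = ((2 * Real.pi * x : ℝ) : ℂ) * Complex.I := by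
      push_cast; ring
    rw [this]; simp
  have ha : a.re < 0 := by
    show (-(σ : ℂ) - 2 * Real.pi * w * Complex.I).re < 0
    rw [Complex.sub_re, hre, Complex.neg_re, Complex.ofReal_re]; linarith
  have hb : 0 < b.re := by
    show 0 < ((σ : ℂ) - 2 * Real.pi * w * Complex.I).re
    rw [Complex.sub_re, hre, Complex.ofReal_re]; linarith
  have e1 : ∀ v ∈ Ioi (0 : ℝ), Complex.exp ((-2 * Real.pi * v * w : ℝ) * Complex.I) • ff σ v =
      Complex.exp (a * v) := by
    intro v hv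
    unfold ff
    rw [abs_of_pos hv, smul_eq_mul, Complex.ofReal_exp, ← Complex.exp_add]
    congr 1
    show _ = (-(σ : ℂ) - 2 * Real.pi * w * Complex.I) * v
    push_cast; ring
  have e2 : ∀ v ∈ Iic (0 : ℝ), Complex.exp ((-2 * Real.pi * v * w : ℝ) * Complex.I) • ff σ v =
      Complex.exp (b * v) := by
    intro v hv
    unfold ff
    rw [abs_of_nonpos hv, smul_eq_mul, Complex.ofReal_exp, ← Complex.exp_add]
    congr 1
    show _ = ((σ : ℂ) - 2 * Real.pi * w * Complex.I) * v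
    push_cast; ring
  have i1 := integrableOn_exp_mul_complex_Ioi ha 0
  have i2 := integrableOn_exp_mul_complex_Iic hb 0
  rw [← integral_add_compl (measurableSet_Iic (a := (0 : ℝ)))]
  · rw [compl_Iic, setIntegral_congr_fun measurableSet_Iic e2,
      setIntegral_congr_fun measurableSet_Ioi e1, integral_exp_mul_complex_Ioi ha,
      integral_exp_mul_complex_Iic hb]
    have ha0 : a ≠ 0 := fun h => by rw [h] at ha; simp at ha
    have hb0 : b ≠ 0 := fun h => by rw [h] at hb; simp at hb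
    have hab : a * b = -((σ : ℂ) ^ 2 + (2 * Real.pi * w) ^ 2) := by
      show (-(σ : ℂ) - 2 * Real.pi * w * Complex.I) * ((σ : ℂ) - 2 * Real.pi * w * Complex.I) = _
      have hI : Complex.I ^ 2 = -1 := Complex.I_sq
      ring_nf
      rw [hI]
      ring
    have hne : ((σ : ℂ) ^ 2 + (2 * Real.pi * w) ^ 2) ≠ 0 := by
      intro h
      rw [h, neg_zero] at hab
      exact mul_ne_zero ha0 hb0 hab
    have hsum : a - b = -(2 * (σ : ℂ)) := by
      show (-(σ : ℂ) - 2 * Real.pi * w * Complex.I) - ((σ : ℂ) - 2 * Real.pi * w * Complex.I) = _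
      ring
    simp only [Complex.ofReal_zero, mul_zero, Complex.exp_zero]
    push_cast
    rw [eq_div_iff hne]
    have : ((σ : ℂ) ^ 2 + (2 * Real.pi * w) ^ 2) = -(a * b) := by rw [hab]; ring
    rw [this]
    have h3 : (1 / b + -1 / a) * -(a * b) = -(a - b) := by
      field_simp
      ring
    rw [h3, hsum]
    ring
  · have : Integrable (fun v : ℝ => Complex.exp ((-2 * Real.pi * v * w : ℝ) * Complex.I) • ff σ v) := by
      rw [← integrableOn_univ, ← Iic_union_Ioi (a := (0 : ℝ))]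
      refine IntegrableOn.union ?_ ?_
      · exact i2.congr_fun (fun v hv => (e2 v hv).symm) measurableSet_Iic
      · exact i1.congr_fun (fun v hv => (e1 v hv).symm) measurableSet_Ioi
    exact this

theorem den_int (σ : ℝ) (hσ : 0 < σ) :
    Integrable (fun w : ℝ => 2 * σ / (σ ^ 2 + (2 * Real.pi * w) ^ 2)) := by
  have h1 := (integrable_inv_one_add_sq.comp_mul_left' (R := 2 * Real.pi / σ) (by positivity)).const_mul
    (2 / σ)
  refine h1.congr (Eventually.of_forall fun w => ?_)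
  show 2 / σ * (1 + (2 * Real.pi / σ * w) ^ 2)⁻¹ = 2 * σ / (σ ^ 2 + (2 * Real.pi * w) ^ 2)
  field_simp

theorem t_V4 : S_V4 := by
  intro σ μ hσ hμ
  have hF : 𝓕 (ff σ) = fun w => ((2 * σ / (σ ^ 2 + (2 * Real.pi * w) ^ 2) : ℝ) : ℂ) :=
    funext (ff_fourier σ hσ)
  have hFi : Integrable (𝓕 (ff σ)) := by
    rw [hF]
    exact (den_int σ hσ).ofReal
  have hinv := congrFun ((ff_cont σ).fourierInv_fourier_eq (ff_int σ hσ) hFi) μ
  rw [Real.fourierInv_eq', hF] at hinv
  -- real part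
  have hre : ∫ v : ℝ, Real.cos (2 * Real.pi * v * μ) * (2 * σ / (σ ^ 2 + (2 * Real.pi * v) ^ 2)) =
      Real.exp (-(σ * μ)) := by
    have h1 := congrArg Complex.re hinv
    have h2 : (ff σ μ).re = Real.exp (-(σ * μ)) := by
      unfold ff
      rw [Complex.ofReal_re, abs_of_nonneg hμ]
    rw [h2] at h1
    rw [← h1]
    have h3 : ∀ v : ℝ, Complex.exp (((2 * Real.pi * inner ℝ v μ : ℝ) : ℂ) * Complex.I) •
        ((2 * σ / (σ ^ 2 + (2 * Real.pi * v) ^ 2) : ℝ) : ℂ) =
        Complex.exp (((2 * Real.pi * v * μ : ℝ) : ℂ) * Complex.I) *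
          ((2 * σ / (σ ^ 2 + (2 * Real.pi * v) ^ 2) : ℝ) : ℂ) := by
      intro v
      rw [smul_eq_mul]
      congr 3
      simp
      ring
    have hint : Integrable (fun v : ℝ => Complex.exp (((2 * Real.pi * v * μ : ℝ) : ℂ) * Complex.I) *
          ((2 * σ / (σ ^ 2 + (2 * Real.pi * v) ^ 2) : ℝ) : ℂ)) := by
      refine ((den_int σ hσ).ofReal (𝕜 := ℂ)).bdd_mul (c := 1) ?_ ?_
      · exact (by fun_prop : Continuous (fun v : ℝ =>
          Complex.exp (((2 * Real.pi * v * μ : ℝ) : ℂ) * Complex.I))).aestronglyMeasurable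
      · exact Eventually.of_forall fun v => (Complex.norm_exp_ofReal_mul_I _).le
    simp_rw [h3]
    rw [← Complex.reCLM_apply, ← ContinuousLinearMap.integral_comp_comm _ hint]
    refine integral_congr_ae (Eventually.of_forall fun v => ?_)
    simp only [Complex.reCLM_apply]
    rw [Complex.mul_re, Complex.ofReal_im, mul_zero, sub_zero, Complex.ofReal_re,
      Complex.exp_ofReal_mul_I_re]
  -- even
  have heven : ∫ v : ℝ, Real.cos (2 * Real.pi * v * μ) * (2 * σ / (σ ^ 2 + (2 * Real.pi * v) ^ 2)) =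
      2 * ∫ v in Ioi (0 : ℝ), Real.cos (2 * Real.pi * v * μ) *
        (2 * σ / (σ ^ 2 + (2 * Real.pi * v) ^ 2)) := by
    rw [← integral_comp_abs (f := fun v : ℝ => Real.cos (2 * Real.pi * v * μ) *
      (2 * σ / (σ ^ 2 + (2 * Real.pi * v) ^ 2)))]
    refine integral_congr_ae (Eventually.of_forall fun v => ?_)
    show Real.cos (2 * Real.pi * v * μ) * (2 * σ / (σ ^ 2 + (2 * Real.pi * v) ^ 2)) =
      Real.cos (2 * Real.pi * |v| * μ) * (2 * σ / (σ ^ 2 + (2 * Real.pi * |v|) ^ 2))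
    rcases abs_cases v with ⟨h, _⟩ | ⟨h, _⟩
    · rw [h]
    · rw [h]
      have e1 : 2 * Real.pi * -v * μ = -(2 * Real.pi * v * μ) := by ring
      have e2 : (2 * Real.pi * -v) ^ 2 = (2 * Real.pi * v) ^ 2 := by ring
      rw [e1, e2, Real.cos_neg]
  have hsub := integral_comp_mul_left_Ioi (fun t : ℝ => Real.cos (t * μ) *
    (2 * σ / (σ ^ 2 + t ^ 2))) 0 (show (0 : ℝ) < 2 * Real.pi by positivity)
  rw [mul_zero, smul_eq_mul] at hsub
  rw [hsub] at heven
  rw [heven] at hre
  have hfin : ∫ t in Ioi (0 : ℝ), Real.cos (t * μ) * (2 * σ / (σ ^ 2 + t ^ 2)) =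
      2 * ∫ t in Ioi (0 : ℝ), σ / (σ ^ 2 + t ^ 2) * Real.cos (t * μ) := by
    rw [← integral_const_mul]
    refine integral_congr_ae (Eventually.of_forall fun t => ?_)
    show Real.cos (t * μ) * (2 * σ / (σ ^ 2 + t ^ 2)) =
      2 * (σ / (σ ^ 2 + t ^ 2) * Real.cos (t * μ))
    ring
  rw [hfin] at hre
  have hpi := Real.pi_pos
  generalize (∫ t in Ioi (0 : ℝ), σ / (σ ^ 2 + t ^ 2) * Real.cos (t * μ)) = J at hre ⊢
  rw [← hre]
  field_simp

end Pool.Agent.Q130.AV
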