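import Pool.Agent.Q130.AV.V4

/-! Lemma V5 of project AV (scalar Runge lemma). -/

open MeasureTheory Filter Topology Set

namespace Pool.Agent.Q130.AV
open Pool.Agent.Q62.AV

/-- the kernels -/
noncomputable def qq (s t : ℝ) (i : ℕ × ℝ) : ℝ :=
  (((((s + i.2 : ℝ) : ℂ) + (t : ℂ) * Complex.I) ^ (i.1 + 1))⁻¹).re

/-- finite combinations of the kernels -/
noncomputable def TT (c : (ℕ × ℝ) →₀ ℝ) (s t : ℝ) : ℝ :=
  Finsupp.linearCombination ℝ (qq s t) c

theorem TT_add (c c' : (ℕ × ℝ) →₀ ℝ) (s t : ℝ) : TT (c + c') s t = TT c s t + TT c' s t :=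
  map_add _ _ _

theorem TT_sub (c c' : (ℕ × ℝ) →₀ ℝ) (s t : ℝ) : TT (c - c') s t = TT c s t - TT c' s t :=
  map_sub _ _ _

theorem TT_smul (a : ℝ) (c : (ℕ × ℝ) →₀ ℝ) (s t : ℝ) : TT (a • c) s t = a * TT c s t :=
  map_smul _ _ _

theorem TT_single (i : ℕ × ℝ) (a : ℝ) (s t : ℝ) : TT (Finsupp.single i a) s t = a * qq s t i := by
  unfold TT
  rw [Finsupp.linearCombination_single, smul_eq_mul]

theorem z_ge (x t : ℝ) (ht : 0 < t) : t ≤ ‖((x : ℂ) + (t : ℂ) * Complex.I)‖ := by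
  have h1 := Complex.abs_im_le_norm ((x : ℂ) + (t : ℂ) * Complex.I)
  have h2 : ((x : ℂ) + (t : ℂ) * Complex.I).im = t := by simp
  rw [h2, abs_of_pos ht] at h1
  exact h1

theorem z_ne (x t : ℝ) (ht : 0 < t) : ((x : ℂ) + (t : ℂ) * Complex.I) ≠ 0 := by
  have := z_ge x t ht
  intro h
  rw [h, norm_zero] at this
  linarith

theorem qq_cont (s d : ℝ) (hd : 0 < d) (i : ℕ × ℝ) : ContinuousOn (fun t => qq s t i) (Ioi d) := by
  unfold qq
  refine Complex.continuous_re.comp_continuousOn ?_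
  refine ContinuousOn.inv₀ (by fun_prop) ?_
  intro t ht
  exact pow_ne_zero _ (z_ne _ t (lt_trans hd ht))

theorem inv_sq_int (d : ℝ) (hd : 0 < d) : IntegrableOn (fun t : ℝ => (t ^ 2)⁻¹) (Ioi d) ∧
    ∫ t in Ioi d, (t ^ 2)⁻¹ = d⁻¹ := by
  have h1 : IntegrableOn (fun t : ℝ => t ^ (-2 : ℝ)) (Ioi d) :=
    integrableOn_Ioi_rpow_of_lt (by norm_num) hd
  have h2 := integral_Ioi_rpow_of_lt (a := -2) (by norm_num) hd
  have e : ∀ t ∈ Ioi d, t ^ (-2 : ℝ) = (t ^ 2)⁻¹ := by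
    intro t ht
    have ht0 : 0 < t := lt_trans hd ht
    rw [Real.rpow_neg ht0.le]
    norm_num
  refine ⟨h1.congr_fun e measurableSet_Ioi, ?_⟩
  rw [← setIntegral_congr_fun measurableSet_Ioi e, h2]
  have : (-2 : ℝ) + 1 = -1 := by norm_num
  rw [this, Real.rpow_neg_one]
  ring

theorem qq_zero (s t r : ℝ) : qq s t (0, r) = (s + r) / ((s + r) ^ 2 + t ^ 2) := by
  unfold qq
  simp only [zero_add, pow_one]
  rw [Complex.inv_re]
  have h1 : (((s + r : ℝ) : ℂ) + (t : ℂ) * Complex.I).re = s + r := by simp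
  have h2 : Complex.normSq (((s + r : ℝ) : ℂ) + (t : ℂ) * Complex.I) = (s + r) ^ 2 + t ^ 2 :=
    Complex.normSq_add_mul_I _ _
  rw [h1, h2]

/-- bound of the kernels of higher order -/
theorem qq_le (s t r d : ℝ) (hd : 0 < d) (ht : d < t) (k : ℕ) :
    |qq s t (k + 1, r)| ≤ (d ^ k)⁻¹ * (t ^ 2)⁻¹ := by
  have ht0 : 0 < t := lt_trans hd ht
  have hz := z_ge (s + r) t ht0
  unfold qq
  refine (Complex.abs_re_le_norm _).trans ?_
  rw [norm_inv, norm_pow, ← mul_inv]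
  refine inv_anti₀ (by positivity) ?_
  calc d ^ k * t ^ 2 ≤ t ^ k * t ^ 2 := by gcongr
    _ = t ^ (k + 1 + 1) := by rw [← pow_add]
    _ ≤ _ := pow_le_pow_left₀ ht0.le hz _

theorem half_pi (a : ℝ) (ha : 0 < a) : IntegrableOn (fun t : ℝ => a / (a ^ 2 + t ^ 2)) (Ioi 0) ∧
    ∫ t in Ioi (0 : ℝ), a / (a ^ 2 + t ^ 2) = Real.pi / 2 := by
  refine ⟨?_, ?_⟩
  · have h1 := (integrable_inv_one_add_sq.comp_mul_left' (R := 1 / a) (by positivity)).const_mul
      (1 / a)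
    refine (h1.congr (Eventually.of_forall fun w => ?_)).integrableOn
    show 1 / a * (1 + (1 / a * w) ^ 2)⁻¹ = a / (a ^ 2 + w ^ 2)
    field_simp
  · have := t_V4 a 0 ha le_rfl
    simpa using this

theorem qq_int_zero (s r d : ℝ) (hd : 0 < d) : IntegrableOn (fun t => qq s t (0, r)) (Ioi d) ∧
    ∫ t in Ioi d, |qq s t (0, r)| ≤ Real.pi / 2 := by
  by_cases h : s + r = 0
  · have e : (fun t => qq s t (0, r)) = fun _ => 0 := by
      funext t; rw [qq_zero, h]; simp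
    rw [e]
    refine ⟨integrableOn_zero, ?_⟩
    have : ∀ t, qq s t (0, r) = 0 := fun t => congrFun e t
    simp_rw [this]
    simp
    positivity
  · have ha : 0 < |s + r| := abs_pos.2 h
    obtain ⟨h1, h2⟩ := half_pi _ ha
    have h3 : IntegrableOn (fun t : ℝ => |s + r| / (|s + r| ^ 2 + t ^ 2)) (Ioi d) :=
      h1.mono_set (Ioi_subset_Ioi hd.le)
    have e : ∀ t, |qq s t (0, r)| = |s + r| / (|s + r| ^ 2 + t ^ 2) := by
      intro t
      rw [qq_zero, abs_div, sq_abs, abs_of_nonneg (by positivity : (0 : ℝ) ≤ (s + r) ^ 2 + t ^ 2)]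
    refine ⟨?_, ?_⟩
    · refine h3.mono' ((qq_cont s d hd (0, r)).aestronglyMeasurable measurableSet_Ioi) ?_
      exact Eventually.of_forall fun t => by rw [Real.norm_eq_abs, e]
    · simp_rw [e]
      rw [← h2]
      refine setIntegral_mono_set h1 ?_ (Ioi_subset_Ioi hd.le).eventuallyLE
      exact Eventually.of_forall fun t => by positivity

theorem qq_int_succ (s r d : ℝ) (hd : 0 < d) (k : ℕ) :
    IntegrableOn (fun t => qq s t (k + 1, r)) (Ioi d) ∧
    ∫ t in Ioi d, |qq s t (k + 1, r)| ≤ (d ^ k)⁻¹ * d⁻¹ := by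
  obtain ⟨h1, h2⟩ := inv_sq_int d hd
  have h3 : IntegrableOn (fun t : ℝ => (d ^ k)⁻¹ * (t ^ 2)⁻¹) (Ioi d) := h1.const_mul _
  have h4 : IntegrableOn (fun t => qq s t (k + 1, r)) (Ioi d) := by
    refine h3.mono' ((qq_cont s d hd _).aestronglyMeasurable measurableSet_Ioi) ?_
    filter_upwards [ae_restrict_mem measurableSet_Ioi] with t ht
    exact qq_le s t r d hd ht k
  refine ⟨h4, ?_⟩
  rw [← h2, ← integral_const_mul]
  exact setIntegral_mono_on h4.abs h3 measurableSet_Ioi fun t ht => qq_le s t r d hd ht k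

theorem qq_int (s d : ℝ) (hd : 0 < d) (i : ℕ × ℝ) : IntegrableOn (fun t => qq s t i) (Ioi d) := by
  obtain ⟨k, r⟩ := i
  cases k with
  | zero => exact (qq_int_zero s r d hd).1
  | succ k => exact (qq_int_succ s r d hd k).1

theorem qq_bdd (d : ℝ) (hd : 0 < d) (i : ℕ × ℝ) : ∃ M, ∀ s, ∫ t in Ioi d, |qq s t i| ≤ M := by
  obtain ⟨k, r⟩ := i
  cases k with
  | zero => exact ⟨_, fun s => (qq_int_zero s r d hd).2⟩
  | succ k => exact ⟨_, fun s => (qq_int_succ s r d hd k).2⟩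

theorem TT_int (d : ℝ) (hd : 0 < d) (c : (ℕ × ℝ) →₀ ℝ) :
    (∀ s, IntegrableOn (fun t => TT c s t) (Ioi d)) ∧ ∃ M, ∀ s, ∫ t in Ioi d, |TT c s t| ≤ M := by
  induction c using Finsupp.induction_linear with
  | zero =>
    have : ∀ s t, TT 0 s t = 0 := fun s t => map_zero _
    refine ⟨fun s => ?_, 0, fun s => ?_⟩
    · simp_rw [this]; exact integrableOn_zero
    · simp_rw [this]; simp
  | add c c' h h' =>
    obtain ⟨h1, M, hM⟩ := h
    obtain ⟨h1', M', hM'⟩ := h'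
    refine ⟨fun s => ?_, M + M', fun s => ?_⟩
    · simp_rw [TT_add]; exact (h1 s).add (h1' s)
    · simp_rw [TT_add]
      calc ∫ t in Ioi d, |TT c s t + TT c' s t| ≤ ∫ t in Ioi d, (|TT c s t| + |TT c' s t|) := by
            refine integral_mono ((h1 s).add (h1' s)).abs ((h1 s).abs.add (h1' s).abs) ?_
            intro t
            exact abs_add_le _ _
        _ = (∫ t in Ioi d, |TT c s t|) + ∫ t in Ioi d, |TT c' s t| :=
            integral_add (h1 s).abs (h1' s).abs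
        _ ≤ M + M' := add_le_add (hM s) (hM' s)
  | single i a =>
    obtain ⟨M, hM⟩ := qq_bdd d hd i
    refine ⟨fun s => ?_, |a| * M, fun s => ?_⟩
    · simp_rw [TT_single]; exact (qq_int s d hd i).const_mul a
    · simp_rw [TT_single, abs_mul]
      rw [integral_const_mul]
      exact mul_le_mul_of_nonneg_left (hM s) (abs_nonneg _)

/-- the norm -/
noncomputable def NN (d : ℝ) (c : (ℕ × ℝ) →₀ ℝ) : ℝ := ⨆ s : Ici (0 : ℝ), ∫ t in Ioi d, |TT c s t|

theorem le_NN (d : ℝ) (hd : 0 < d) (c : (ℕ × ℝ) →₀ ℝ) (s : ℝ) (hs : 0 ≤ s) :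
    ∫ t in Ioi d, |TT c s t| ≤ NN d c := by
  obtain ⟨-, M, hM⟩ := TT_int d hd c
  exact le_ciSup (f := fun s : Ici (0 : ℝ) => ∫ t in Ioi d, |TT c s t|)
    ⟨M, by rintro _ ⟨s, rfl⟩; exact hM s⟩ ⟨s, hs⟩

theorem NN_le (d : ℝ) (c : (ℕ × ℝ) →₀ ℝ) (M : ℝ)
    (h : ∀ s, 0 ≤ s → ∫ t in Ioi d, |TT c s t| ≤ M) : NN d c ≤ M :=
  ciSup_le fun s => h s s.2

theorem NN_nonneg (d : ℝ) (hd : 0 < d) (c : (ℕ × ℝ) →₀ ℝ) : 0 ≤ NN d c :=
  le_trans (integral_nonneg fun _ => abs_nonneg _) (le_NN d hd c 0 le_rfl)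

theorem NN_add (d : ℝ) (hd : 0 < d) (c c' : (ℕ × ℝ) →₀ ℝ) : NN d (c + c') ≤ NN d c + NN d c' := by
  refine NN_le d _ _ fun s hs => ?_
  obtain ⟨h1, -⟩ := TT_int d hd c
  obtain ⟨h1', -⟩ := TT_int d hd c'
  simp_rw [TT_add]
  calc ∫ t in Ioi d, |TT c s t + TT c' s t| ≤ ∫ t in Ioi d, (|TT c s t| + |TT c' s t|) := by
        refine integral_mono ((h1 s).add (h1' s)).abs ((h1 s).abs.add (h1' s).abs) ?_
        intro t
        exact abs_add_le _ _
    _ = (∫ t in Ioi d, |TT c s t|) + ∫ t in Ioi d, |TT c' s t| :=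
        integral_add (h1 s).abs (h1' s).abs
    _ ≤ _ := add_le_add (le_NN d hd c s hs) (le_NN d hd c' s hs)

theorem NN_smul_le (d : ℝ) (hd : 0 < d) (a : ℝ) (c : (ℕ × ℝ) →₀ ℝ) :
    NN d (a • c) ≤ |a| * NN d c := by
  refine NN_le d _ _ fun s hs => ?_
  simp_rw [TT_smul, abs_mul]
  rw [integral_const_mul]
  exact mul_le_mul_of_nonneg_left (le_NN d hd c s hs) (abs_nonneg _)

theorem NN_smul (d : ℝ) (hd : 0 < d) (a : ℝ) (ha : 0 < a) (c : (ℕ × ℝ) →₀ ℝ) :
    NN d (a • c) = a * NN d c := by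
  refine le_antisymm ?_ ?_
  · have := NN_smul_le d hd a c
    rwa [abs_of_pos ha] at this
  · have h1 := NN_smul_le d hd a⁻¹ (a • c)
    rw [smul_smul, inv_mul_cancel₀ ha.ne', one_smul, abs_of_pos (inv_pos.2 ha)] at h1
    calc a * NN d c ≤ a * (a⁻¹ * NN d (a • c)) := mul_le_mul_of_nonneg_left h1 ha.le
      _ = NN d (a • c) := by rw [← mul_assoc, mul_inv_cancel₀ ha.ne', one_mul]

/-- the geometric identity -/
theorem geo (z h : ℂ) (hz : z ≠ 0) (hzh : z + h ≠ 0) (n : ℕ) :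
    (z + h)⁻¹ - ∑ k ∈ Finset.range n, (-h) ^ k * (z ^ (k + 1))⁻¹ = (-h) ^ n * (z ^ n)⁻¹ * (z + h)⁻¹ := by
  induction n with
  | zero => simp
  | succ n ih =>
    rw [Finset.sum_range_succ, ← sub_sub, ih]
    field_simp
    ring

/-- the Taylor remainder -/
noncomputable def del (r h : ℝ) (n : ℕ) : (ℕ × ℝ) →₀ ℝ :=
  Finsupp.single (0, r + h) 1 - ∑ k ∈ Finset.range n, Finsupp.single (k, r) ((-h) ^ k)

theorem TT_del (r h : ℝ) (n : ℕ) (s t : ℝ) (ht : 0 < t) :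
    TT (del r h n) s t = ((((-h : ℝ) : ℂ) ^ n * ((((s + r : ℝ) : ℂ) + (t : ℂ) * Complex.I) ^ n)⁻¹ *
      ((((s + (r + h) : ℝ) : ℂ) + (t : ℂ) * Complex.I))⁻¹)).re := by
  unfold del
  rw [TT_sub, TT_single, one_mul]
  have h1 : TT (∑ k ∈ Finset.range n, Finsupp.single (k, r) ((-h) ^ k)) s t =
      ∑ k ∈ Finset.range n, (-h) ^ k * qq s t (k, r) := by
    unfold TT
    rw [map_sum]
    refine Finset.sum_congr rfl fun k _ => ?_
    rw [Finsupp.linearCombination_single, smul_eq_mul]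
  rw [h1]
  have hz := z_ne (s + r) t ht
  have hzh := z_ne (s + (r + h)) t ht
  have e : (((s + (r + h) : ℝ) : ℂ) + (t : ℂ) * Complex.I) =
      (((s + r : ℝ) : ℂ) + (t : ℂ) * Complex.I) + (h : ℂ) := by push_cast; ring
  have hg := geo (((s + r : ℝ) : ℂ) + (t : ℂ) * Complex.I) h hz (by rw [← e]; exact hzh) n
  rw [← e] at hg
  have hg2 := congrArg Complex.re hg
  have e3 : ((-h : ℝ) : ℂ) = -(h : ℂ) := by push_cast; rfl
  rw [e3, ← hg2, Complex.sub_re, Complex.re_sum]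
  unfold qq
  simp only [zero_add, pow_one]
  congr 1
  refine Finset.sum_congr rfl fun k _ => ?_
  have e4 : (-(h : ℂ)) ^ k = (((-h) ^ k : ℝ) : ℂ) := by push_cast; rfl
  rw [e4, Complex.re_ofReal_mul]

theorem NN_del (d : ℝ) (hd : 0 < d) (r h : ℝ) (n : ℕ) :
    NN d (del r h (n + 1)) ≤ (|h| / d) ^ (n + 1) := by
  obtain ⟨h1, h2⟩ := inv_sq_int d hd
  refine NN_le d _ _ fun s _ => ?_
  have hle : ∀ t ∈ Ioi d, |TT (del r h (n + 1)) s t| ≤ |h| ^ (n + 1) * (d ^ n)⁻¹ * (t ^ 2)⁻¹ := by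
    intro t ht
    have ht0 : 0 < t := lt_trans hd ht
    rw [TT_del r h (n + 1) s t ht0]
    refine (Complex.abs_re_le_norm _).trans ?_
    rw [norm_mul, norm_mul, norm_pow, norm_inv, norm_inv, norm_pow, Complex.norm_real, norm_neg,
      Real.norm_eq_abs]
    have hz := z_ge (s + r) t ht0
    have hzh := z_ge (s + (r + h)) t ht0
    have e1 : (‖((s + r : ℝ) : ℂ) + (t : ℂ) * Complex.I‖ ^ (n + 1))⁻¹ ≤ (t ^ (n + 1))⁻¹ :=
      inv_anti₀ (by positivity) (pow_le_pow_left₀ ht0.le hz _)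
    have e2 : (‖((s + (r + h) : ℝ) : ℂ) + (t : ℂ) * Complex.I‖)⁻¹ ≤ t⁻¹ := inv_anti₀ ht0 hzh
    calc |h| ^ (n + 1) * (‖((s + r : ℝ) : ℂ) + (t : ℂ) * Complex.I‖ ^ (n + 1))⁻¹ *
          (‖((s + (r + h) : ℝ) : ℂ) + (t : ℂ) * Complex.I‖)⁻¹
        ≤ |h| ^ (n + 1) * (t ^ (n + 1))⁻¹ * t⁻¹ := by gcongr
      _ = |h| ^ (n + 1) * (t ^ n)⁻¹ * (t ^ 2)⁻¹ := by
          rw [pow_succ t n, pow_two, mul_inv, mul_inv]; ring
      _ ≤ |h| ^ (n + 1) * (d ^ n)⁻¹ * (t ^ 2)⁻¹ := by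
          have : (t ^ n)⁻¹ ≤ (d ^ n)⁻¹ :=
            inv_anti₀ (by positivity) (pow_le_pow_left₀ hd.le (le_of_lt ht) n)
          gcongr
  calc ∫ t in Ioi d, |TT (del r h (n + 1)) s t| ≤
        ∫ t in Ioi d, |h| ^ (n + 1) * (d ^ n)⁻¹ * (t ^ 2)⁻¹ :=
        setIntegral_mono_on ((TT_int d hd _).1 s).abs (h1.const_mul _) measurableSet_Ioi hle
    _ = |h| ^ (n + 1) * (d ^ n)⁻¹ * d⁻¹ := by rw [integral_const_mul, h2]
    _ = (|h| / d) ^ (n + 1) := by
        rw [div_pow, pow_succ d n, div_eq_mul_inv, mul_inv]; ring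

theorem NN_single_succ (d : ℝ) (hd : 0 < d) (r a : ℝ) (k : ℕ) :
    NN d (Finsupp.single (k + 1, r) a) ≤ |a| * ((d ^ k)⁻¹ * d⁻¹) := by
  refine NN_le d _ _ fun s _ => ?_
  simp_rw [TT_single, abs_mul]
  rw [integral_const_mul]
  exact mul_le_mul_of_nonneg_left (qq_int_succ s r d hd k).2 (abs_nonneg _)

theorem NN_single_zero (d : ℝ) (hd : 0 < d) (r : ℝ) :
    NN d (Finsupp.single (0, r) 1) ≤ Real.pi / 2 := by
  refine NN_le d _ _ fun s _ => ?_
  simp_rw [TT_single, one_mul]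
  exact (qq_int_zero s r d hd).2

/-- analyticity of `r ↦ Λ g_r` -/
theorem anal (d C : ℝ) (hd : 0 < d) (hC : 0 ≤ C) (Λ : ((ℕ × ℝ) →₀ ℝ) →ₗ[ℝ] ℝ)
    (hΛ : ∀ c, |Λ c| ≤ C * NN d c) (r : ℝ) :
    AnalyticAt ℝ (fun r => Λ (Finsupp.single (0, r) 1)) r := by
  let p : FormalMultilinearSeries ℝ ℝ ℝ :=
    FormalMultilinearSeries.ofScalars ℝ (fun k => (-1) ^ k * Λ (Finsupp.single (k, r) 1))
  refine ⟨p, ?_⟩
  rw [hasFPowerSeriesAt_iff]
  have hball : ∀ᶠ h : ℝ in 𝓝 0, |h| < d := by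
    have := Metric.ball_mem_nhds (0 : ℝ) hd
    filter_upwards [this] with h hh
    simpa [Real.dist_eq] using hh
  filter_upwards [hball] with h hh
  have hq0 : 0 ≤ |h| / d := by positivity
  have hq1 : |h| / d < 1 := (div_lt_one hd).2 hh
  have hcoef : ∀ k, h ^ k • p.coeff k = (-h) ^ k * Λ (Finsupp.single (k, r) 1) := by
    intro k
    show h ^ k • (FormalMultilinearSeries.ofScalars ℝ
      (fun k => (-1) ^ k * Λ (Finsupp.single (k, r) 1))).coeff k = _
    rw [FormalMultilinearSeries.coeff_ofScalars, smul_eq_mul, ← mul_assoc, ← mul_pow]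
    congr 2
    ring
  simp_rw [hcoef]
  -- summability
  have hsum : Summable (fun k => ‖(-h) ^ k * Λ (Finsupp.single (k, r) 1)‖) := by
    rw [← summable_nat_add_iff 1]
    refine Summable.of_nonneg_of_le (fun k => norm_nonneg _) (fun k => ?_)
      ((summable_geometric_of_lt_one hq0 hq1).mul_left (C * (|h| / d)))
    rw [norm_mul, norm_pow, norm_neg, Real.norm_eq_abs, Real.norm_eq_abs]
    calc |h| ^ (k + 1) * |Λ (Finsupp.single (k + 1, r) 1)|
        ≤ |h| ^ (k + 1) * (C * (|1| * ((d ^ k)⁻¹ * d⁻¹))) := by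
          refine mul_le_mul_of_nonneg_left ?_ (by positivity)
          exact (hΛ _).trans (mul_le_mul_of_nonneg_left (NN_single_succ d hd r 1 k) hC)
      _ = C * (|h| / d) * (|h| / d) ^ k := by
          rw [abs_one, one_mul, div_pow, pow_succ]
          field_simp
  refine (hasSum_iff_tendsto_nat_of_summable_norm hsum).2 ?_
  rw [← tendsto_add_atTop_iff_nat 1]
  have hdel : ∀ n, Λ (Finsupp.single (0, r + h) 1) -
      ∑ k ∈ Finset.range n, (-h) ^ k * Λ (Finsupp.single (k, r) 1) = Λ (del r h n) := by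
    intro n
    unfold del
    rw [map_sub, map_sum]
    congr 1
    refine Finset.sum_congr rfl fun k _ => ?_
    have : Finsupp.single (k, r) ((-h) ^ k) = (-h) ^ k • (Finsupp.single (k, r) (1 : ℝ)) := by
      rw [Finsupp.smul_single, smul_eq_mul, mul_one]
    rw [this, map_smul, smul_eq_mul]
  have hz : Tendsto (fun n => Λ (del r h (n + 1))) atTop (𝓝 0) := by
    have h1 : Tendsto (fun n : ℕ => C * (|h| / d) ^ (n + 1)) atTop (𝓝 (C * 0)) :=
      ((tendsto_pow_atTop_nhds_zero_of_lt_one hq0 hq1).comp (tendsto_add_atTop_nat 1)).const_mul C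
    rw [mul_zero] at h1
    refine squeeze_zero_norm (fun n => ?_) h1
    rw [Real.norm_eq_abs]
    exact (hΛ _).trans (mul_le_mul_of_nonneg_left (NN_del d hd r h n) hC)
  have h2 := (tendsto_const_nhds (x := Λ (Finsupp.single (0, r + h) 1))).sub hz
  rw [sub_zero] at h2
  refine h2.congr fun n => ?_
  rw [← hdel]
  ring

theorem t_V5 : S_V5 := by
  classical
  intro d μ C hd hμ
  by_contra hcon
  push Not at hcon
  -- the inequality for finitely supported families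
  have hCpos : 0 < C := by
    have := hcon 0 (fun _ => 0) (fun _ => 0) (fun k => le_rfl) (fun s _ => by simp)
    simpa using this
  let f : ((ℕ × ℝ) →₀ ℝ) →ₗ[ℝ] ℝ := Finsupp.linearCombination ℝ (fun i => Real.exp (-(μ * i.2)))
  let Dm : Submodule ℝ ((ℕ × ℝ) →₀ ℝ) := Finsupp.supported ℝ ℝ {i | i.1 = 0 ∧ 0 ≤ i.2}
  have key : ∀ c ∈ Dm, NN d c ≤ 1 → |f c| < C := by
    intro c hc hN
    have hc' : ∀ i ∈ c.support, i.1 = 0 ∧ 0 ≤ i.2 := fun i hi =>
      (Finsupp.mem_supported ℝ c).1 hc hi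
    let e := c.support.equivFin.symm
    have h1 := hcon c.support.card (fun k => c (e k)) (fun k => (e k : ℕ × ℝ).2)
      (fun k => (hc' _ (e k).2).2) ?_
    · have h2 : f c = ∑ k : Fin c.support.card, c (e k) * Real.exp (-(μ * (e k : ℕ × ℝ).2)) := by
        show Finsupp.linearCombination ℝ (fun i : ℕ × ℝ => Real.exp (-(μ * i.2))) c = _
        rw [Finsupp.linearCombination_apply, Finsupp.sum, ← Finset.sum_coe_sort,
          ← e.sum_comp]
        rfl
      rw [h2]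
      exact h1
    · intro s hs
      refine le_trans (le_of_eq ?_) ((le_NN d hd c s hs).trans hN)
      refine integral_congr_ae (Eventually.of_forall fun t => ?_)
      show |∑ k : Fin c.support.card, c (e k) *
        ((s + (e k : ℕ × ℝ).2) / ((s + (e k : ℕ × ℝ).2) ^ 2 + t ^ 2))| =
        |TT c s t|
      congr 1
      unfold TT
      rw [Finsupp.linearCombination_apply, Finsupp.sum,
        ← Finset.sum_coe_sort c.support (fun a => c a • qq s t a), ← e.sum_comp]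
      refine Finset.sum_congr rfl fun k _ => ?_
      rw [smul_eq_mul]
      congr 1
      have h3 : (e k : ℕ × ℝ) = (0, (e k : ℕ × ℝ).2) := Prod.ext (hc' _ (e k).2).1 rfl
      rw [h3, qq_zero]
  have key2 : ∀ c ∈ Dm, f c ≤ C * NN d c := by
    intro c hc
    refine le_of_forall_pos_le_add fun ε hε => ?_
    -- scale
    set M := NN d c + ε / C with hM
    have hM0 : 0 < M := by have := NN_nonneg d hd c; positivity
    have h1 := key (M⁻¹ • c) (Dm.smul_mem _ hc) (by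
      rw [NN_smul d hd _ (inv_pos.2 hM0), inv_mul_le_iff₀ hM0, mul_one, hM]
      have : 0 < ε / C := by positivity
      linarith)
    rw [map_smul, smul_eq_mul, abs_mul, abs_of_pos (inv_pos.2 hM0), inv_mul_lt_iff₀ hM0] at h1
    have h2 : f c ≤ M * C := (le_abs_self _).trans h1.le
    have h3 : M * C = C * NN d c + ε := by rw [hM]; field_simp
    rw [h3] at h2
    exact h2
  -- Hahn-Banach
  obtain ⟨Λ, hΛ1, hΛ2⟩ := exists_extension_of_le_sublinear
    (⟨Dm, f.domRestrict Dm⟩ : ((ℕ × ℝ) →₀ ℝ) →ₗ.[ℝ] ℝ) (fun c => C * NN d c)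
    (fun a ha c => by show C * NN d (a • c) = a * (C * NN d c); rw [NN_smul d hd a ha]; ring)
    (fun c c' => by
      show C * NN d (c + c') ≤ C * NN d c + C * NN d c'
      rw [← mul_add]
      exact mul_le_mul_of_nonneg_left (NN_add d hd c c') hCpos.le)
    (fun c => key2 c.1 c.2)
  have hΛ3 : ∀ c, |Λ c| ≤ C * NN d c := by
    intro c
    rw [abs_le']
    refine ⟨hΛ2 c, ?_⟩
    rw [← map_neg]
    refine (hΛ2 (-c)).trans ?_
    show C * NN d (-c) ≤ C * NN d c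
    refine mul_le_mul_of_nonneg_left ?_ hCpos.le
    have := NN_smul_le d hd (-1) c
    simpa using this
  -- the analytic function
  have hF : AnalyticOnNhd ℝ (fun r => Λ (Finsupp.single (0, r) 1)) univ :=
    fun r _ => anal d C hd hCpos.le Λ hΛ3 r
  have hG : AnalyticOnNhd ℝ (fun r => Real.exp (-(μ * r))) univ := by
    intro r _
    fun_prop
  have hFG : (fun r => Λ (Finsupp.single (0, r) 1)) =ᶠ[𝓝 1] fun r => Real.exp (-(μ * r)) := by
    filter_upwards [lt_mem_nhds (show (0 : ℝ) < 1 by norm_num)] with r hr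
    have hmem : Finsupp.single (0, r) (1 : ℝ) ∈ Dm := by
      refine (Finsupp.mem_supported ℝ _).2 ?_
      intro i hi
      have := Finsupp.support_single_subset (Finset.mem_coe.1 hi)
      rw [Finset.mem_singleton] at this
      rw [this]
      exact ⟨rfl, hr.le⟩
    have h1 := hΛ1 ⟨_, hmem⟩
    show Λ (Finsupp.single (0, r) 1) = _
    refine h1.trans ?_
    show f (Finsupp.single (0, r) 1) = _
    show Finsupp.linearCombination ℝ (fun i : ℕ × ℝ => Real.exp (-(μ * i.2))) _ = _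
    rw [Finsupp.linearCombination_single, one_smul]
  have heq := hF.eq_of_eventuallyEq hG hFG
  have hbd : ∀ r : ℝ, Real.exp (-(μ * r)) ≤ C * (Real.pi / 2) := by
    intro r
    have h1 := congrFun heq r
    have h2 : Λ (Finsupp.single (0, r) 1) = Real.exp (-(μ * r)) := h1
    rw [← h2]
    exact (hΛ2 _).trans (mul_le_mul_of_nonneg_left (NN_single_zero d hd r) hCpos.le)
  have h1 := hbd (-(C * (Real.pi / 2)) / μ)
  have h2 := Real.add_one_le_exp (-(μ * (-(C * (Real.pi / 2)) / μ)))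
  have h3 : -(μ * (-(C * (Real.pi / 2)) / μ)) = C * (Real.pi / 2) := by field_simp
  rw [h3] at h1 h2
  linarith

end Pool.Agent.Q130.AV
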