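import Pool.Agent.Q62.AV.Stm

/-! Lemma V7 of project AV (subordination). -/

open MeasureTheory Filter Topology Set

namespace Pool.Agent.Q130.AV
open Pool.Agent.Q62.AV

/-- bounded Laplace sums -/
def PP (μ b : ℕ → ℝ) : Prop := Summable (fun j => |b j|) ∧
  ∀ σ : ℝ, 0 ≤ σ → |∑' j, Real.exp (-(σ * μ j)) * b j| ≤ 1

/-- multipliers of the bounded Laplace sums -/
def DD (μ Φ : ℕ → ℝ) : Prop := (∀ j, |Φ j| ≤ 1) ∧ ∀ b, PP μ b → PP μ (fun j => Φ j * b j)

theorem mul_summable {Φ b : ℕ → ℝ} (hΦ : ∀ j, |Φ j| ≤ 1) (hb : Summable (fun j => |b j|)) :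
    Summable (fun j => |Φ j * b j|) := by
  refine Summable.of_nonneg_of_le (fun j => abs_nonneg _) (fun j => ?_) hb
  rw [abs_mul]
  calc |Φ j| * |b j| ≤ 1 * |b j| := mul_le_mul_of_nonneg_right (hΦ j) (abs_nonneg _)
    _ = |b j| := one_mul _

theorem exp_abs_le {μ : ℕ → ℝ} (hμ : ∀ j, 0 < μ j) {σ : ℝ} (hσ : 0 ≤ σ) (j : ℕ) :
    |Real.exp (-(σ * μ j))| ≤ 1 := by
  rw [abs_of_pos (Real.exp_pos _)]
  exact Real.exp_le_one_iff.2 (by have := mul_nonneg hσ (hμ j).le; linarith)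

theorem DD_one (μ : ℕ → ℝ) : DD μ (fun _ => 1) := by
  refine ⟨fun j => by simp, fun b hb => ?_⟩
  simpa using hb

theorem DD_mul {μ Φ Φ' : ℕ → ℝ} (h : DD μ Φ) (h' : DD μ Φ') : DD μ (fun j => Φ j * Φ' j) := by
  refine ⟨fun j => ?_, fun b hb => ?_⟩
  · rw [abs_mul]
    exact mul_le_one₀ (h.1 j) (abs_nonneg _) (h'.1 j)
  · have := h.2 _ (h'.2 b hb)
    simpa [mul_assoc] using this

theorem DD_pow {μ Φ : ℕ → ℝ} (h : DD μ Φ) : ∀ n : ℕ, DD μ (fun j => Φ j ^ n)
  | 0 => by simpa using DD_one μ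
  | (n + 1) => by
      have := DD_mul (DD_pow h n) h
      simpa [pow_succ] using this

theorem DD_convex {μ Φ Φ' : ℕ → ℝ} (hμ : ∀ j, 0 < μ j) (h : DD μ Φ) (h' : DD μ Φ') (a : ℝ)
    (ha0 : 0 ≤ a) (ha1 : a ≤ 1) : DD μ (fun j => a * Φ j + (1 - a) * Φ' j) := by
  have key : ∀ x y : ℝ, |x| ≤ 1 → |y| ≤ 1 → |a * x + (1 - a) * y| ≤ 1 := by
    intro x y hx hy
    calc |a * x + (1 - a) * y| ≤ |a * x| + |(1 - a) * y| := abs_add_le _ _
      _ = a * |x| + (1 - a) * |y| := by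
          rw [abs_mul, abs_mul, abs_of_nonneg ha0, abs_of_nonneg (by linarith : 0 ≤ 1 - a)]
      _ ≤ a * 1 + (1 - a) * 1 := by gcongr
      _ = 1 := by ring
  have hb1 : ∀ j, |a * Φ j + (1 - a) * Φ' j| ≤ 1 := fun j => key _ _ (h.1 j) (h'.1 j)
  refine ⟨hb1, fun b hb => ⟨mul_summable hb1 hb.1, fun σ hσ => ?_⟩⟩
  have s1 := h.2 b hb
  have s2 := h'.2 b hb
  have t1 : Summable (fun j => Real.exp (-(σ * μ j)) * (Φ j * b j)) :=
    (mul_summable (fun j => exp_abs_le hμ hσ j) s1.1).of_abs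
  have t2 : Summable (fun j => Real.exp (-(σ * μ j)) * (Φ' j * b j)) :=
    (mul_summable (fun j => exp_abs_le hμ hσ j) s2.1).of_abs
  have e : ∑' j, Real.exp (-(σ * μ j)) * ((a * Φ j + (1 - a) * Φ' j) * b j) =
      a * (∑' j, Real.exp (-(σ * μ j)) * (Φ j * b j)) +
        (1 - a) * ∑' j, Real.exp (-(σ * μ j)) * (Φ' j * b j) := by
    rw [← tsum_mul_left, ← tsum_mul_left, ← (t1.mul_left a).tsum_add (t2.mul_left (1 - a))]
    refine tsum_congr fun j => ?_
    ring
  rw [e]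
  exact key _ _ (s1.2 σ hσ) (s2.2 σ hσ)

theorem DD_lim {μ : ℕ → ℝ} (hμ : ∀ j, 0 < μ j) (Φ : ℕ → ℕ → ℝ) (Ψ : ℕ → ℝ)
    (h : ∀ᶠ k in atTop, DD μ (Φ k)) (hlim : ∀ j, Tendsto (fun k => Φ k j) atTop (𝓝 (Ψ j))) :
    DD μ Ψ := by
  have hb1 : ∀ j, |Ψ j| ≤ 1 := fun j =>
    le_of_tendsto (hlim j).abs (h.mono fun k hk => hk.1 j)
  refine ⟨hb1, fun b hb => ⟨mul_summable hb1 hb.1, fun σ hσ => ?_⟩⟩
  have ht : Tendsto (fun k => ∑' j, Real.exp (-(σ * μ j)) * (Φ k j * b j)) atTop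
      (𝓝 (∑' j, Real.exp (-(σ * μ j)) * (Ψ j * b j))) := by
    refine tendsto_tsum_of_dominated_convergence (bound := fun j => |b j|) hb.1 ?_ ?_
    · intro j
      exact ((hlim j).mul_const _).const_mul _
    · filter_upwards [h] with k hk j
      rw [Real.norm_eq_abs, abs_mul, abs_mul]
      calc |Real.exp (-(σ * μ j))| * (|Φ k j| * |b j|) ≤ 1 * (1 * |b j|) := by
            gcongr
            · exact exp_abs_le hμ hσ j
            · exact hk.1 j
        _ = |b j| := by ring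
  exact le_of_tendsto ht.abs (h.mono fun k hk => (hk.2 b hb).2 σ hσ)

theorem DD_exp {μ Ψ : ℕ → ℝ} (hμ : ∀ j, 0 < μ j) (h : DD μ Ψ) (c : ℝ) (hc : 0 ≤ c) :
    DD μ (fun j => Real.exp (-(c * (1 - Ψ j)))) := by
  refine DD_lim hμ (fun n j => (1 + (-(c * (1 - Ψ j))) / n) ^ n) _ ?_
    (fun j => Real.tendsto_one_add_div_pow_exp _)
  filter_upwards [eventually_ge_atTop (Nat.ceil c + 1)] with n hn
  have hn0 : (0 : ℝ) < n := by
    have : 0 < n := by omega
    exact_mod_cast this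
  have hcn : c ≤ n := by
    have h1 : (Nat.ceil c : ℝ) ≤ n := by exact_mod_cast (by omega : Nat.ceil c ≤ n)
    exact (Nat.le_ceil c).trans h1
  have h2 := DD_pow (DD_convex hμ h (DD_one μ) (c / n) (by positivity)
    ((div_le_one hn0).2 hcn)) n
  have e : (fun j => (c / n * Ψ j + (1 - c / n) * 1) ^ n) =
      fun j => (1 + (-(c * (1 - Ψ j))) / n) ^ n := by
    funext j
    congr 1
    field_simp
    ring
  rw [← e]
  exact h2

theorem DD_int {μ : ℕ → ℝ} (hμ : ∀ j, 0 < μ j) (ε : ℝ) (hε : 0 ≤ ε) (w : ℝ → ℝ)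
    (hw0 : ∀ r ∈ Ioi ε, 0 ≤ w r) (hwi : IntegrableOn w (Ioi ε)) (hw1 : ∫ r in Ioi ε, w r = 1) :
    DD μ (fun j => ∫ r in Ioi ε, Real.exp (-(r * μ j)) * w r) := by
  have hexpi : ∀ (τ : ℝ), 0 ≤ τ → ∀ j, IntegrableOn (fun r => Real.exp (-((τ + r) * μ j)) * w r)
      (Ioi ε) := by
    intro τ hτ j
    refine hwi.bdd_mul (c := 1) ?_ ?_
    · exact (by fun_prop : Continuous (fun r => Real.exp (-((τ + r) * μ j)))).aestronglyMeasurable
    · filter_upwards [ae_restrict_mem measurableSet_Ioi] with r hr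
      rw [Real.norm_eq_abs]
      exact exp_abs_le hμ (by have : ε < r := hr; linarith) j
  have hnorm : ∀ (τ : ℝ), 0 ≤ τ → ∀ j, ∫ r in Ioi ε, ‖Real.exp (-((τ + r) * μ j)) * w r‖ ≤ 1 := by
    intro τ hτ j
    rw [← hw1]
    refine setIntegral_mono_on (hexpi τ hτ j).norm hwi measurableSet_Ioi ?_
    intro r hr
    rw [Real.norm_eq_abs, abs_mul, abs_of_nonneg (hw0 r hr)]
    calc _ ≤ 1 * w r := mul_le_mul_of_nonneg_right
          (exp_abs_le hμ (by have : ε < r := hr; linarith) j) (hw0 r hr)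
      _ = w r := one_mul _
  have hb1 : ∀ j, |∫ r in Ioi ε, Real.exp (-(r * μ j)) * w r| ≤ 1 := by
    intro j
    have h1 := hnorm 0 le_rfl j
    simp only [zero_add] at h1
    exact (norm_integral_le_integral_norm _).trans h1
  refine ⟨hb1, fun b hb => ⟨mul_summable hb1 hb.1, fun σ hσ => ?_⟩⟩
  -- exchange
  have hF : ∀ j, Integrable (fun r => b j * (Real.exp (-((σ + r) * μ j)) * w r))
      (volume.restrict (Ioi ε)) := fun j => (hexpi σ hσ j).const_mul _
  have hFs : Summable (fun j => ∫ r in Ioi ε, ‖b j * (Real.exp (-((σ + r) * μ j)) * w r)‖) := by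
    refine Summable.of_nonneg_of_le (fun j => integral_nonneg fun r => norm_nonneg _)
      (fun j => ?_) hb.1
    have : ∀ r, ‖b j * (Real.exp (-((σ + r) * μ j)) * w r)‖ =
        |b j| * ‖Real.exp (-((σ + r) * μ j)) * w r‖ := fun r => by
      rw [norm_mul, Real.norm_eq_abs]
    simp_rw [this]
    rw [integral_const_mul]
    calc _ ≤ |b j| * 1 := mul_le_mul_of_nonneg_left (hnorm σ hσ j) (abs_nonneg _)
      _ = |b j| := mul_one _
  have hex := integral_tsum_of_summable_integral_norm hF hFs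
  have e1 : ∑' j, Real.exp (-(σ * μ j)) * ((∫ r in Ioi ε, Real.exp (-(r * μ j)) * w r) * b j) =
      ∑' j, ∫ r in Ioi ε, b j * (Real.exp (-((σ + r) * μ j)) * w r) := by
    refine tsum_congr fun j => ?_
    rw [integral_const_mul]
    have : ∫ r in Ioi ε, Real.exp (-((σ + r) * μ j)) * w r =
        Real.exp (-(σ * μ j)) * ∫ r in Ioi ε, Real.exp (-(r * μ j)) * w r := by
      rw [← integral_const_mul]
      refine integral_congr_ae (Eventually.of_forall fun r => ?_)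
      show Real.exp (-((σ + r) * μ j)) * w r = Real.exp (-(σ * μ j)) * (Real.exp (-(r * μ j)) * w r)
      rw [← mul_assoc, ← Real.exp_add]
      congr 2
      ring
    rw [this]
    ring
  rw [e1, hex]
  have hpt : ∀ r ∈ Ioi ε, ‖∑' j, b j * (Real.exp (-((σ + r) * μ j)) * w r)‖ ≤ w r := by
    intro r hr
    have e2 : ∑' j, b j * (Real.exp (-((σ + r) * μ j)) * w r) =
        (∑' j, Real.exp (-((σ + r) * μ j)) * b j) * w r := by
      rw [← tsum_mul_right]
      refine tsum_congr fun j => ?_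
      ring
    rw [e2, norm_mul, Real.norm_eq_abs, Real.norm_eq_abs, abs_of_nonneg (hw0 r hr)]
    have hr' : ε < r := hr
    calc _ ≤ 1 * w r := mul_le_mul_of_nonneg_right (hb.2 (σ + r) (by linarith)) (hw0 r hr)
      _ = w r := one_mul _
  rw [← Real.norm_eq_abs]
  calc ‖∫ r in Ioi ε, ∑' j, b j * (Real.exp (-((σ + r) * μ j)) * w r)‖
      ≤ ∫ r in Ioi ε, w r := by
        refine norm_integral_le_of_norm_le hwi ?_
        filter_upwards [ae_restrict_mem measurableSet_Ioi] with r hr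
        exact hpt r hr
    _ = 1 := hw1

/-- the Lévy density integrand -/
noncomputable def hh (β m r : ℝ) : ℝ := (1 - Real.exp (-(r * m))) * r ^ (-1 - β)

theorem hh_nonneg {β m r : ℝ} (hm : 0 ≤ m) (hr : 0 ≤ r) : 0 ≤ hh β m r := by
  unfold hh
  refine mul_nonneg ?_ (Real.rpow_nonneg hr _)
  have : Real.exp (-(r * m)) ≤ 1 := Real.exp_le_one_iff.2 (by have := mul_nonneg hr hm; linarith)
  linarith

theorem hh_int {β m : ℝ} (hβ0 : 0 < β) (hβ1 : β < 1) (hm : 0 < m) : IntegrableOn (hh β m) (Ioi 0) := by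
  have hmeas : ∀ s : Set ℝ, AEStronglyMeasurable (hh β m) (volume.restrict s) := by
    intro s
    unfold hh
    exact (by fun_prop : Measurable (fun r : ℝ =>
      (1 - Real.exp (-(r * m))) * r ^ (-1 - β))).aestronglyMeasurable
  rw [← Ioc_union_Ioi_eq_Ioi (zero_le_one : (0 : ℝ) ≤ 1)]
  refine IntegrableOn.union ?_ ?_
  · have h1 : IntegrableOn (fun r : ℝ => m * r ^ (-β)) (Ioc 0 1) := by
      have := (intervalIntegral.intervalIntegrable_rpow' (a := 0) (b := 1) (r := -β)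
        (by linarith)).1
      exact this.const_mul m
    refine h1.mono' (hmeas _) ?_
    filter_upwards [ae_restrict_mem measurableSet_Ioc] with r hr
    have hr0 : 0 < r := hr.1
    rw [Real.norm_eq_abs, abs_of_nonneg (hh_nonneg hm.le hr0.le)]
    unfold hh
    have h2 : 1 - Real.exp (-(r * m)) ≤ r * m := by
      have := Real.add_one_le_exp (-(r * m))
      linarith
    calc (1 - Real.exp (-(r * m))) * r ^ (-1 - β) ≤ r * m * r ^ (-1 - β) :=
          mul_le_mul_of_nonneg_right h2 (Real.rpow_nonneg hr0.le _)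
      _ = m * (r ^ (1 : ℝ) * r ^ (-1 - β)) := by rw [Real.rpow_one]; ring
      _ = m * r ^ (-β) := by rw [← Real.rpow_add hr0]; congr 2; ring
  · have h1 : IntegrableOn (fun r : ℝ => r ^ (-1 - β)) (Ioi 1) :=
      integrableOn_Ioi_rpow_of_lt (by linarith) one_pos
    refine h1.mono' (hmeas _) ?_
    filter_upwards [ae_restrict_mem measurableSet_Ioi] with r hr
    have hr0 : 0 < r := lt_trans one_pos hr
    rw [Real.norm_eq_abs, abs_of_nonneg (hh_nonneg hm.le hr0.le)]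
    unfold hh
    calc (1 - Real.exp (-(r * m))) * r ^ (-1 - β) ≤ 1 * r ^ (-1 - β) := by
          refine mul_le_mul_of_nonneg_right ?_ (Real.rpow_nonneg hr0.le _)
          have := Real.exp_pos (-(r * m))
          linarith
      _ = r ^ (-1 - β) := one_mul _

theorem hh_scale {β m : ℝ} (hm : 0 < m) :
    ∫ r in Ioi 0, hh β m r = m ^ β * ∫ r in Ioi 0, hh β 1 r := by
  have h1 := integral_comp_mul_left_Ioi (fun r => hh β 1 r) 0 hm
  rw [mul_zero, smul_eq_mul] at h1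
  have h2 : ∫ r in Ioi 0, hh β m r = ∫ r in Ioi 0, m ^ (1 + β) * hh β 1 (m * r) := by
    refine setIntegral_congr_fun measurableSet_Ioi fun r hr => ?_
    have hr0 : (0 : ℝ) < r := hr
    unfold hh
    show (1 - Real.exp (-(r * m))) * r ^ (-1 - β) =
      m ^ (1 + β) * ((1 - Real.exp (-(m * r * 1))) * (m * r) ^ (-1 - β))
    rw [Real.mul_rpow hm.le hr0.le, mul_one, mul_comm r m]
    have h3 : m ^ (1 + β) * m ^ (-1 - β) = 1 := by
      rw [← Real.rpow_add hm]
      have : 1 + β + (-1 - β) = 0 := by ring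
      rw [this, Real.rpow_zero]
    calc (1 - Real.exp (-(m * r))) * r ^ (-1 - β) =
          (m ^ (1 + β) * m ^ (-1 - β)) * ((1 - Real.exp (-(m * r))) * r ^ (-1 - β)) := by
          rw [h3, one_mul]
      _ = _ := by ring
  rw [h2, integral_const_mul, h1, ← mul_assoc]
  congr 1
  rw [← Real.rpow_neg_one, ← Real.rpow_add hm]
  congr 1
  ring

theorem K_pos {β : ℝ} (hβ0 : 0 < β) (hβ1 : β < 1) : 0 < ∫ r in Ioi 0, hh β 1 r := by
  rw [setIntegral_pos_iff_support_of_nonneg_ae]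
  · have : Function.support (hh β 1) ∩ Ioi 0 = Ioi 0 := by
      ext r
      simp only [mem_inter_iff, Function.mem_support, mem_Ioi, and_iff_right_iff_imp]
      intro hr
      unfold hh
      refine mul_ne_zero ?_ (Real.rpow_pos_of_pos hr _).ne'
      have : Real.exp (-(r * 1)) < 1 := Real.exp_lt_one_iff.2 (by linarith)
      linarith
    rw [this, Real.volume_Ioi]
    exact ENNReal.zero_lt_top
  · filter_upwards [ae_restrict_mem measurableSet_Ioi] with r hr
    exact hh_nonneg zero_le_one (le_of_lt hr)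
  · exact hh_int hβ0 hβ1 one_pos

theorem DD_rpow {μ : ℕ → ℝ} (hμ : ∀ j, 0 < μ j) (β s : ℝ) (hβ0 : 0 < β) (hβ1 : β < 1)
    (hs : 0 ≤ s) : DD μ (fun j => Real.exp (-(s * μ j ^ β))) := by
  set K := ∫ r in Ioi 0, hh β 1 r with hK
  have hK0 : 0 < K := K_pos hβ0 hβ1
  let ε : ℕ → ℝ := fun n => 1 / ((n : ℝ) + 1)
  have hε0 : ∀ n, 0 < ε n := fun n => by positivity
  let a : ℕ → ℝ := fun n => ∫ r in Ioi (ε n), r ^ (-1 - β)
  have hwi : ∀ n, IntegrableOn (fun r : ℝ => r ^ (-1 - β)) (Ioi (ε n)) := fun n =>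
    integrableOn_Ioi_rpow_of_lt (by linarith) (hε0 n)
  have ha0 : ∀ n, 0 < a n := by
    intro n
    show 0 < ∫ r in Ioi (ε n), r ^ (-1 - β)
    rw [integral_Ioi_rpow_of_lt (by linarith) (hε0 n)]
    have h1 : (-1 - β + 1) < 0 := by linarith
    have h2 : 0 < ε n ^ (-1 - β + 1) := Real.rpow_pos_of_pos (hε0 n) _
    rw [neg_div, neg_pos]
    exact div_neg_of_pos_of_neg h2 h1
  let Ψ : ℕ → ℕ → ℝ := fun n j => ∫ r in Ioi (ε n), Real.exp (-(r * μ j)) * ((a n)⁻¹ * r ^ (-1 - β))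
  have hΨ : ∀ n, DD μ (Ψ n) := by
    intro n
    refine DD_int hμ (ε n) (hε0 n).le _ ?_ ?_ ?_
    · intro r hr
      exact mul_nonneg (inv_nonneg.2 (ha0 n).le) (Real.rpow_nonneg ((hε0 n).le.trans (le_of_lt hr)) _)
    · exact (hwi n).const_mul _
    · rw [integral_const_mul]
      exact inv_mul_cancel₀ (ha0 n).ne'
  have hDD : ∀ n, DD μ (fun j => Real.exp (-(s * a n / K * (1 - Ψ n j)))) := fun n =>
    DD_exp hμ (hΨ n) _ (by have := (ha0 n).le; positivity)
  refine DD_lim hμ _ _ (Eventually.of_forall hDD) fun j => ?_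
  refine (Real.continuous_exp.tendsto _).comp ?_
  refine Tendsto.neg ?_
  have e1 : ∀ n, s * a n / K * (1 - Ψ n j) = s / K * ∫ r in Ioi (ε n), hh β (μ j) r := by
    intro n
    have h1 : Ψ n j = (a n)⁻¹ * ∫ r in Ioi (ε n), Real.exp (-(r * μ j)) * r ^ (-1 - β) := by
      rw [← integral_const_mul]
      refine integral_congr_ae (Eventually.of_forall fun r => ?_)
      show Real.exp (-(r * μ j)) * ((a n)⁻¹ * r ^ (-1 - β)) =
        (a n)⁻¹ * (Real.exp (-(r * μ j)) * r ^ (-1 - β))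
      ring
    have hi2 : IntegrableOn (fun r : ℝ => Real.exp (-(r * μ j)) * r ^ (-1 - β)) (Ioi (ε n)) := by
      refine (hwi n).bdd_mul (c := 1) ?_ ?_
      · exact (by fun_prop : Continuous (fun r => Real.exp (-(r * μ j)))).aestronglyMeasurable
      · filter_upwards [ae_restrict_mem measurableSet_Ioi] with r hr
        rw [Real.norm_eq_abs]
        exact exp_abs_le hμ ((hε0 n).le.trans (le_of_lt hr)) j
    have h2 : ∫ r in Ioi (ε n), hh β (μ j) r =
        a n - ∫ r in Ioi (ε n), Real.exp (-(r * μ j)) * r ^ (-1 - β) := by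
      rw [← integral_sub (hwi n) hi2]
      refine integral_congr_ae (Eventually.of_forall fun r => ?_)
      show (1 - Real.exp (-(r * μ j))) * r ^ (-1 - β) =
        r ^ (-1 - β) - Real.exp (-(r * μ j)) * r ^ (-1 - β)
      ring
    rw [h1, h2]
    have := (ha0 n).ne'
    generalize (∫ r in Ioi (ε n), Real.exp (-(r * μ j)) * r ^ (-1 - β)) = I
    field_simp
  simp_rw [e1]
  have hlim : Tendsto (fun n => ∫ r in Ioi (ε n), hh β (μ j) r) atTop
      (𝓝 (∫ r in ⋃ n, Ioi (ε n), hh β (μ j) r)) := by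
    refine tendsto_setIntegral_of_monotone (fun n => measurableSet_Ioi) ?_ ?_
    · intro n m hnm r hr
      have h1 : ε m ≤ ε n := by
        show 1 / ((m : ℝ) + 1) ≤ 1 / ((n : ℝ) + 1)
        have : (n : ℝ) ≤ m := by exact_mod_cast hnm
        exact one_div_le_one_div_of_le (by positivity) (by linarith)
      exact lt_of_le_of_lt h1 hr
    · refine (hh_int hβ0 hβ1 (hμ j)).mono_set ?_
      intro r hr
      obtain ⟨n, hn⟩ := mem_iUnion.1 hr
      exact lt_trans (hε0 n) hn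
  have hU : ⋃ n, Ioi (ε n) = Ioi (0 : ℝ) := by
    ext r
    simp only [mem_iUnion, mem_Ioi]
    constructor
    · rintro ⟨n, hn⟩
      exact lt_trans (hε0 n) hn
    · intro hr
      exact exists_nat_one_div_lt hr
  rw [hU, hh_scale (hμ j), ← hK] at hlim
  have h3 := hlim.const_mul (s / K)
  have e2 : s / K * (μ j ^ β * K) = s * μ j ^ β := by
    field_simp
  rw [e2] at h3
  exact h3

theorem t_V7 : S_V7 := by
  intro b μ hb hμ hP β s hβ0 hβ1 hs
  rcases hβ1.lt_or_eq with h | h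
  · have h1 := ((DD_rpow hμ β s hβ0 h hs).2 b ⟨hb, hP⟩).2 0 le_rfl
    simpa using h1
  · subst h
    have := hP s hs
    simpa using this

end Pool.Agent.Q130.AV
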